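import Pool.Agent.W990.FS.Fpt

/-!
# Single-machine makespan minimization with forbidden start and end times is fixed-parameter
tractable with respect to the number of forbidden times

`FptTime κ f` and `IsFpt κ P` (file `Pool.Agent.H633R2.FptDefs`) are fixed-parameter tractability in
Mathlib's machine model `Turing.TM2`, for functions and for decision problems, with all numbers of
the input in binary.
-/

namespace Pool.Agent.Results.MP_5dd24d_lc.ForbiddenTimesFPT

open Pool.Agent.NPC Pool.Agent.H633R2 Pool.Agent.W990.FS
open scoped NNReal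

/-- An instance: the list of the processing times of the jobs, and the list of the forbidden
times. -/
abbrev Inst : Type := List ℕ × List ℕ

/-- All processing times are positive. -/
def Proper (I : Inst) : Prop := ∀ a ∈ I.1, 0 < a

/-- The parameter: the number of (distinct) forbidden times. -/
def numForbidden (I : Inst) : ℕ := I.2.toFinset.card

section

variable {R : Type} [Semiring R] [LinearOrder R] [OrderBot R]

/-- Feasible schedules, with start times in `R` (for us `R = ℕ` or `R = ℝ≥0`): `S j` is the start
time of job `j`, and `S j + I.1[j]` is its completion time. -/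
structure Feasible (I : Inst) (S : Fin I.1.length → R) : Prop where
  /-- No start time is forbidden. -/
  start : ∀ j, ∀ f ∈ I.2, S j ≠ (f : R)
  /-- No completion time is forbidden. -/
  finish : ∀ j, ∀ f ∈ I.2, S j + (I.1[j] : R) ≠ (f : R)
  /-- The machine processes one job at a time. -/
  disjoint : ∀ i j, i ≠ j → S i + (I.1[i] : R) ≤ S j ∨ S j + (I.1[j] : R) ≤ S i

/-- The makespan: the largest completion time. -/
def makespan (I : Inst) (S : Fin I.1.length → R) : R :=
  Finset.univ.sup fun j => S j + (I.1[j] : R)

/-- Feasible schedules of minimum makespan. -/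
def Optimal (I : Inst) (S : Fin I.1.length → R) : Prop :=
  Feasible I S ∧ ∀ S' : Fin I.1.length → R, Feasible I S' → makespan I S ≤ makespan I S'

end

/-! ### The algorithms -/

theorem numForbidden_eq (I : Inst) : numForbidden I = I.2.dedup.length := List.card_toFinset _

theorem poly_num {α : Type} [TEnc α] {f : α → Inst} (hf : Poly f) :
    Poly (fun x => numForbidden (f x)) := by
  have : Poly (fun x => (f x).2.dedup.length) := by fun_prop
  exact this.congr fun x => (numForbidden_eq _).symm

/-- The schedule computed by the algorithm. -/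
def alg (I : Inst) : List ℕ := sched I.2 (caps (numForbidden I)) I.1

/-- The optimum. -/
def opt (I : Inst) : ℕ := optU I.2 (caps (numForbidden I)) I.1 0

theorem capsOk (I : Inst) : CapsOk I.2 (caps (numForbidden I)) := by
  rw [numForbidden_eq]
  exact caps_ok _

theorem opt_spec {I : Inst} (hI : Proper I) : IsOpt I.1 I.2 0 (opt I) := optU_spec (capsOk I) hI 0

theorem fpt_alg : FptTime numForbidden alg :=
  fpt_of_poly (g := fun y : Inst × Caps => sched y.1.2 y.2 y.1.1) (poly_num NPC.Poly.id)
    (poly_sched (by fun_prop) (by fun_prop) (by fun_prop))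

theorem opt_le {I : Inst} (hI : Proper I) {S : Fin I.1.length → ℕ} (hS : Feasible I S) :
    opt I ≤ makespan I S := by
  obtain ⟨l, h1, h2, h3⟩ := seq_of_schedule (F := I.2) hI (S := S)
    (fun j hj => hS.start j _ hj rfl) (fun j hj => hS.finish j _ hj rfl) hS.disjoint
  refine ((opt_spec hI).2 l h1 h2).trans (h3 _ ?_)
  intro j
  exact Finset.le_sup (f := fun j : Fin I.1.length => S j + ((I.1[j] : ℕ) : ℕ)) (Finset.mem_univ j)

theorem alg_spec {I : Inst} (hI : Proper I) : ∃ h : (alg I).length = I.1.length,
    Feasible I (fun j => (alg I)[j]) ∧ makespan I (fun j => (alg I)[j]) = opt I := by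
  obtain ⟨h1, l, h2, h3, h4⟩ := sched_spec (capsOk I) hI
  change (alg I).length = I.1.length at h1
  change ((alg I).zip I.1).Perm l at h2
  change fin 0 l = opt I at h4
  obtain ⟨g1, g2, g3⟩ := schedule_of_seq h1 h2 h3
  refine ⟨h1, ⟨?_, ?_, ?_⟩, ?_⟩
  · intro j f hf e
    exact (g1 j j.2).1 (by simp only [Nat.cast_id] at e; rw [← e] at hf; exact hf)
  · intro j f hf e
    exact (g1 j j.2).2.1 (by simp only [Nat.cast_id] at e; rw [← e] at hf; exact hf)
  · intro i j hij
    exact g2 i j i.2 j.2 (fun h => hij (Fin.ext h))
  · apply le_antisymm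
    · apply Finset.sup_le
      intro j _
      have := (g1 j j.2).2.2
      rw [h4] at this
      exact this
    · rcases eq_or_ne I.1 [] with hp | hp
      · have h5 : opt I = 0 := by
          refine (opt_spec hI).unique ?_
          rw [hp]
          refine ⟨⟨[], by simp, trivial, rfl⟩, ?_⟩
          intro l _ _
          exact Nat.zero_le _
        rw [h5]
        exact Nat.zero_le _
      · obtain ⟨j, hj, e⟩ := g3 hp
        rw [h4] at e
        have h6 : opt I = (alg I)[j] + I.1[j] := e.symm
        rw [h6]
        exact Finset.le_sup (f := fun j : Fin I.1.length => (alg I)[j] + ((I.1[j] : ℕ) : ℕ))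
          (Finset.mem_univ (⟨j, hj⟩ : Fin I.1.length))

theorem nn_iff {I : Inst} (hI : Proper I) (T : ℝ≥0) :
    (∃ S : Fin I.1.length → ℝ≥0, Feasible I S ∧ makespan I S ≤ T) ↔
      ((I.1.sum : ℕ) : ℝ≥0) < T ∨ (T = ((I.1.sum : ℕ) : ℝ≥0) ∧ opt I = I.1.sum) := by
  have h := real_iff hI (T := (T : ℝ)) (NNReal.coe_nonneg T) (opt_spec hI)
  obtain ⟨s, hs⟩ : ∃ s, s = I.1.sum := ⟨_, rfl⟩
  rw [← hs] at h ⊢
  constructor
  · rintro ⟨S, h1, h2⟩
    have h3 := h.mp ⟨fun j => (S j : ℝ), fun j => (S j).2, ?_, ?_, ?_, ?_⟩
    · rcases h3 with h3 | ⟨h3, h4⟩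
      · left
        rw [← NNReal.coe_lt_coe]
        exact_mod_cast h3
      · right
        refine ⟨?_, h4⟩
        rw [← NNReal.coe_inj]
        exact_mod_cast h3
    · intro j f hf e
      simp only at e
      exact h1.start j f hf (by exact_mod_cast e)
    · intro j f hf e
      simp only at e
      exact h1.finish j f hf (by exact_mod_cast e)
    · intro i j hij
      simp only
      rcases h1.disjoint i j hij with h4 | h4
      · left; exact_mod_cast h4
      · right; exact_mod_cast h4
    · intro j
      have h4 := (Finset.le_sup (f := fun j : Fin I.1.length => S j + ((I.1[j] : ℕ) : ℝ≥0))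
        (Finset.mem_univ j)).trans h2
      simp only
      exact_mod_cast h4
  · intro h3
    obtain ⟨S, g0, g1, g2, g3, g4⟩ := h.mpr (by
      rcases h3 with h3 | ⟨h3, h4⟩
      · left
        rw [← NNReal.coe_lt_coe] at h3
        exact_mod_cast h3
      · right
        refine ⟨?_, h4⟩
        rw [← NNReal.coe_inj] at h3
        exact_mod_cast h3)
    have hc : ∀ j, ((Real.toNNReal (S j) : ℝ≥0) : ℝ) = S j := fun j => Real.coe_toNNReal _ (g0 j)
    refine ⟨fun j => Real.toNNReal (S j), ⟨?_, ?_, ?_⟩, ?_⟩
    · intro j f hf e
      have e' := NNReal.coe_inj.mpr e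
      rw [hc, NNReal.coe_natCast] at e'
      exact g1 j f hf e'
    · intro j f hf e
      have e' := NNReal.coe_inj.mpr e
      rw [NNReal.coe_add, hc, NNReal.coe_natCast, NNReal.coe_natCast] at e'
      exact g2 j f hf e'
    · intro i j hij
      rcases g3 i j hij with h4 | h4
      · left
        refine NNReal.coe_le_coe.mp ?_
        rw [NNReal.coe_add, hc, hc, NNReal.coe_natCast]
        exact h4
      · right
        refine NNReal.coe_le_coe.mp ?_
        rw [NNReal.coe_add, hc, hc, NNReal.coe_natCast]
        exact h4
    · apply Finset.sup_le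
      intro j _
      refine NNReal.coe_le_coe.mp ?_
      rw [NNReal.coe_add, hc, NNReal.coe_natCast]
      exact g4 j

/-- **Single-machine makespan minimization with `τ` forbidden start and end times is
fixed-parameter tractable with respect to `τ`.** In detail, with parameter the number of distinct
forbidden times and all numbers in binary:

* (integer start times, optimization) some fpt algorithm computes a feasible schedule of minimum
  makespan (as the list of the start times of the jobs);
* (integer start times, decision) it is fixed-parameter tractable to decide whether a feasible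
  schedule with makespan at most a given number exists;
* (real start times, optimization; here a minimum need not exist) some fpt algorithm outputs a
  feasible schedule that has minimum makespan among all schedules with real start times, or
  reports, correctly, that there is none;
* (real start times, decision) it is fixed-parameter tractable to decide whether a feasible
  schedule with real start times and makespan at most a given rational number exists. -/
theorem result :
    (∃ A : Inst → List ℕ, FptTime numForbidden A ∧ ∀ I, Proper I →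
      ∃ _ : (A I).length = I.1.length, Optimal I (fun j => (A I)[j])) ∧
    (IsFpt (fun x : Inst × ℕ => numForbidden x.1) (fun x => Proper x.1 ∧
      ∃ S : Fin x.1.1.length → ℕ, Feasible x.1 S ∧ makespan x.1 S ≤ x.2)) ∧
    (∃ A : Inst → Option (List ℕ), FptTime numForbidden A ∧ ∀ I, Proper I →
      (∀ L, A I = some L → ∃ _ : L.length = I.1.length,
        Optimal I (fun j => ((L[j] : ℕ) : ℝ≥0))) ∧
      (A I = none → ¬ ∃ S : Fin I.1.length → ℝ≥0, Optimal I S)) ∧
    (IsFpt (fun x : Inst × ℕ × ℕ => numForbidden x.1) (fun x => Proper x.1 ∧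
      ∃ S : Fin x.1.1.length → ℝ≥0, Feasible x.1 S ∧
        makespan x.1 S ≤ (x.2.1 : ℝ≥0) / ((x.2.2 + 1 : ℕ) : ℝ≥0))) := by
  refine ⟨⟨alg, fpt_alg, ?_⟩, ?_, ?_, ?_⟩
  · intro I hI
    obtain ⟨h1, h2, h3⟩ := alg_spec hI
    refine ⟨h1, h2, fun S' hS' => ?_⟩
    rw [h3]
    exact opt_le hI hS'
  · refine ⟨fun x => x.1.1.all (fun a => decide (0 < a)) && decide (opt x.1 ≤ x.2), ?_, ?_⟩
    · exact fpt_of_poly (g := fun y : (Inst × ℕ) × Caps =>
        y.1.1.1.all (fun a => decide (0 < a)) && decide (optU y.1.1.2 y.2 y.1.1.1 0 ≤ y.1.2))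
        (poly_num (NPC.Poly.fst NPC.Poly.id)) (by fun_prop)
    · intro x
      simp only [Bool.and_eq_true, List.all_eq_true, decide_eq_true_eq]
      constructor
      · rintro ⟨h1, h2⟩
        obtain ⟨g1, g2, g3⟩ := alg_spec (I := x.1) h1
        exact ⟨h1, _, g2, by rw [g3]; exact h2⟩
      · rintro ⟨h1, S, h2, h3⟩
        exact ⟨h1, (opt_le h1 h2).trans h3⟩
  · refine ⟨fun I => bif decide (opt I = I.1.sum) then some (alg I) else none, ?_, ?_⟩
    · refine fpt_of_poly (g := fun y : Inst × Caps =>
        bif decide (optU y.1.2 y.2 y.1.1 0 = y.1.1.sum) then some (sched y.1.2 y.2 y.1.1) else none)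
        (poly_num NPC.Poly.id) ?_
      have h1 : Poly (fun y : Inst × Caps => sched y.1.2 y.2 y.1.1) :=
        poly_sched (by fun_prop) (by fun_prop) (by fun_prop)
      fun_prop
    · intro I hI
      have hlow : ∀ S' : Fin I.1.length → ℝ≥0, Feasible I S' →
          ((I.1.sum : ℕ) : ℝ≥0) ≤ makespan I S' := by
        intro S' hS'
        rcases (nn_iff hI (makespan I S')).mp ⟨S', hS', le_rfl⟩ with h | h
        · exact h.le
        · exact h.1.ge
      constructor
      · intro L hL
        simp only at hL
        by_cases h : opt I = I.1.sum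
        · rw [decide_eq_true h, cond_true, Option.some.injEq] at hL
          subst hL
          obtain ⟨g1, g2, g3⟩ := alg_spec hI
          refine ⟨g1, ⟨?_, ?_, ?_⟩, ?_⟩
          · intro j f hf e
            exact g2.start j f hf (by exact_mod_cast e)
          · intro j f hf e
            exact g2.finish j f hf (by exact_mod_cast e)
          · intro i j hij
            rcases g2.disjoint i j hij with h4 | h4
            · left; exact_mod_cast h4
            · right; exact_mod_cast h4
          · intro S' hS'
            refine le_trans ?_ (hlow S' hS')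
            apply Finset.sup_le
            intro j _
            have h5 := Finset.le_sup (f := fun j : Fin I.1.length =>
              (alg I)[j] + ((I.1[j] : ℕ) : ℕ)) (Finset.mem_univ j)
            have h6 : (alg I)[j] + I.1[j] ≤ I.1.sum := by
              rw [← h, ← g3]
              exact h5
            have h7 : (((alg I)[j] + I.1[j] : ℕ) : ℝ≥0) ≤ ((I.1.sum : ℕ) : ℝ≥0) :=
              Nat.cast_le.mpr h6
            rw [Nat.cast_add] at h7
            exact h7
        · rw [decide_eq_false h, cond_false] at hL
          exact absurd hL (by simp)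
      · intro hN
        simp only at hN
        by_cases h : opt I = I.1.sum
        · rw [decide_eq_true h, cond_true] at hN
          exact absurd hN (by simp)
        · rintro ⟨S, hS1, hS2⟩
          have h1 : ((I.1.sum : ℕ) : ℝ≥0) < makespan I S := by
            rcases (nn_iff hI (makespan I S)).mp ⟨S, hS1, le_rfl⟩ with h2 | h2
            · exact h2
            · exact absurd h2.2 h
          obtain ⟨T, hT1, hT2⟩ := exists_between h1
          obtain ⟨S', k1, k2⟩ := (nn_iff hI T).mpr (Or.inl hT1)
          exact absurd (hS2 S' k1) (not_le.mpr (k2.trans_lt hT2))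
  · refine ⟨fun x => x.1.1.all (fun a => decide (0 < a)) &&
      (decide (x.1.1.sum * (x.2.2 + 1) < x.2.1) || (decide (x.2.1 = x.1.1.sum * (x.2.2 + 1)) &&
        decide (opt x.1 = x.1.1.sum))), ?_, ?_⟩
    · exact fpt_of_poly (g := fun y : (Inst × ℕ × ℕ) × Caps =>
        y.1.1.1.all (fun a => decide (0 < a)) &&
        (decide (y.1.1.1.sum * (y.1.2.2 + 1) < y.1.2.1) ||
          (decide (y.1.2.1 = y.1.1.1.sum * (y.1.2.2 + 1)) &&
            decide (optU y.1.1.2 y.2 y.1.1.1 0 = y.1.1.1.sum))))
        (poly_num (NPC.Poly.fst NPC.Poly.id)) (by fun_prop)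
    · intro x
      simp only [Bool.and_eq_true, Bool.or_eq_true, List.all_eq_true, decide_eq_true_eq]
      have hpos : (0 : ℝ≥0) < ((x.2.2 + 1 : ℕ) : ℝ≥0) := by positivity
      have e1 : ((x.1.1.sum : ℕ) : ℝ≥0) < (x.2.1 : ℝ≥0) / ((x.2.2 + 1 : ℕ) : ℝ≥0) ↔
          x.1.1.sum * (x.2.2 + 1) < x.2.1 := by
        rw [lt_div_iff₀ hpos]
        exact_mod_cast Iff.rfl
      have e2 : (x.2.1 : ℝ≥0) / ((x.2.2 + 1 : ℕ) : ℝ≥0) = ((x.1.1.sum : ℕ) : ℝ≥0) ↔
          x.2.1 = x.1.1.sum * (x.2.2 + 1) := by
        rw [div_eq_iff hpos.ne']
        exact_mod_cast Iff.rfl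
      constructor
      · rintro ⟨h1, h2⟩
        refine ⟨h1, (nn_iff h1 _).mpr ?_⟩
        rw [e1, e2]
        exact h2
      · rintro ⟨h1, h2⟩
        refine ⟨h1, ?_⟩
        have := (nn_iff h1 _).mp h2
        rwa [e1, e2] at this

end Pool.Agent.Results.MP_5dd24d_lc.ForbiddenTimesFPT
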